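import Pool.Agent.RIG.CALC

/-!
# Uniqueness of the continuation and the limit
-/

set_option autoImplicit false

open NumberField IsDedekindDomain Filter Topology
open scoped TensorProduct Classical

namespace StarkC

namespace RIG

/-- Meromorphic functions on `ℂ` which agree for `1 < re s` have the same trailing coefficient
at `0`. -/
theorem trail_unique {f g : ℂ → ℂ} (hf : ∀ z, MeromorphicAt f z) (hg : ∀ z, MeromorphicAt g z)
    (h : ∀ s : ℂ, 1 < s.re → f s = g s) :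
    meromorphicTrailingCoeffAt f 0 = meromorphicTrailingCoeffAt g 0 := by
  have hm : MeromorphicOn (f - g) Set.univ := fun z _ => (hf z).sub (hg z)
  have h2 : meromorphicOrderAt (f - g) 2 = ⊤ := by
    rw [meromorphicOrderAt_eq_top_iff]
    have h3 : {s : ℂ | 1 < s.re} ∈ 𝓝 (2 : ℂ) :=
      (isOpen_lt continuous_const Complex.continuous_re).mem_nhds (by norm_num)
    have h4 : ∀ᶠ s in 𝓝 (2 : ℂ), (f - g) s = 0 := by
      filter_upwards [h3] with s hs
      show f s - g s = 0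
      rw [h s hs, sub_self]
    exact h4.filter_mono nhdsWithin_le_nhds
  have h0 : meromorphicOrderAt (f - g) 0 = ⊤ := by
    by_contra hne
    exact hm.meromorphicOrderAt_ne_top_of_isPreconnected (x := 0) isPreconnected_univ
      (Set.mem_univ _) (Set.mem_univ 2) hne h2
  rw [meromorphicOrderAt_eq_top_iff] at h0
  refine meromorphicTrailingCoeffAt_congr_nhdsNE ?_
  filter_upwards [h0] with s hs
  exact sub_eq_zero.1 hs

section

variable {K L : Type} [Field K] [NumberField K] [Field L] [NumberField L] [Algebra K L]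
  {S : Set (HeightOneSpectrum (𝓞 K))} {T : Set (HeightOneSpectrum (𝓞 L))}
  {Θ : XC L T →ₗ[ℂ] XC L T} {V V' : Type} [AddCommGroup V] [Module ℂ V]
  [AddCommGroup V'] [Module ℂ V'] {ρ : Representation ℂ (L ≃ₐ[K] L) V}
  {ρ' : Representation ℂ (L ≃ₐ[K] L) V'} {σ : ℂ ≃+* ℂ}

theorem artin_pow {χ : (L ≃ₐ[K] L) → ℂ} {M : ℕ} {f : ℂ → ℂ} (hf : IsArtinLMul M χ S f) (k : ℕ) :
    IsArtinLMul (M * k) χ S (fun z => f z ^ k) := by
  refine ⟨fun z => (hf.1 z).fun_pow k, fun s hs => ?_⟩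
  show f s ^ k = _
  rw [hf.2 s hs, ← Complex.exp_nat_mul]
  congr 1
  push_cast
  ring

/-- The numbers of two continuations. -/
theorem val_unique {χ : (L ≃ₐ[K] L) → ℂ} {M₁ M₂ : ℕ} {f₁ f₂ : ℂ → ℂ}
    (h₁ : IsArtinLMul M₁ χ S f₁) (h₂ : IsArtinLMul M₂ χ S f₂) (R : ℂ) :
    (R ^ M₁ / meromorphicTrailingCoeffAt f₁ 0) ^ M₂ =
      (R ^ M₂ / meromorphicTrailingCoeffAt f₂ 0) ^ M₁ := by
  have e1 : meromorphicTrailingCoeffAt f₁ 0 ^ M₂ = meromorphicTrailingCoeffAt f₂ 0 ^ M₁ := by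
    rw [← (h₁.1 0).meromorphicTrailingCoeffAt_pow, ← (h₂.1 0).meromorphicTrailingCoeffAt_pow]
    refine trail_unique (fun z => (h₁.1 z).pow M₂) (fun z => (h₂.1 z).pow M₁) fun s hs => ?_
    have a1 := (artin_pow h₁ M₂).2 s hs
    have a2 := (artin_pow h₂ M₁).2 s hs
    rw [mul_comm M₂ M₁] at a2
    exact a1.trans a2.symm
  rw [div_pow, div_pow, e1, ← pow_mul, ← pow_mul, mul_comm M₁ M₂]

/-- From all absolute values and all factors to Stark's assertion up to a root of unity. -/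
theorem limit (hV : ∀ x : ℂ, (∀ v : AbsoluteValue ℂ ℝ, v x = 1) → ∃ k : ℕ, 0 < k ∧ x ^ k = 1)
    (h : ∀ (v : AbsoluteValue ℂ ℝ) (c : ℝ), 0 < c → ∃ M : ℕ, 0 < M ∧ NearMul v c M S T Θ ρ ρ' σ) :
    ∃ M : ℕ, 0 < M ∧ StarkMulAt M S T Θ ρ ρ' σ := by
  let v₀ : AbsoluteValue ℂ ℝ := NormedField.toAbsoluteValue ℂ
  obtain ⟨M, hM, f, f', hf, hf', -⟩ := h v₀ 1 one_pos
  set A : ℂ := σ (Reg T ρ Θ ^ M / meromorphicTrailingCoeffAt f 0) with hA
  set A' : ℂ := Reg T ρ' Θ ^ M / meromorphicTrailingCoeffAt f' 0 with hA'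
  have key : ∀ (v : AbsoluteValue ℂ ℝ) (c : ℝ), 0 < c → Cl v (c * M) A A' := by
    intro v c hc
    obtain ⟨M₂, hM₂, f₂, f₂', hf₂, hf₂', hcl⟩ := h v c hc
    set B : ℂ := σ (Reg T ρ Θ ^ M₂ / meromorphicTrailingCoeffAt f₂ 0) with hB
    set B' : ℂ := Reg T ρ' Θ ^ M₂ / meromorphicTrailingCoeffAt f₂' 0 with hB'
    have e1 : A ^ M₂ = B ^ M := by
      rw [hA, hB, ← map_pow, ← map_pow, val_unique hf hf₂]
    have e2 : A' ^ M₂ = B' ^ M := by
      rw [hA', hB', val_unique hf' hf₂']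
    have h1 := hcl.pow M
    rw [← e1, ← e2] at h1
    have aux : ∀ x y : ℂ, v (x ^ M₂) ≤ Real.exp ((M : ℝ) * (c * M₂)) * v (y ^ M₂) →
        v x ≤ Real.exp (c * M) * v y := by
      intro x y hxy
      rw [map_pow, map_pow] at hxy
      have h2 : Real.exp ((M : ℝ) * (c * M₂)) = Real.exp (c * M) ^ M₂ := by
        rw [← Real.exp_nat_mul]
        congr 1
        ring
      rw [h2, ← mul_pow] at hxy
      exact le_of_pow_le_pow_left₀ hM₂.ne' (mul_nonneg (Real.exp_pos _).le (v.nonneg _)) hxy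
    exact ⟨aux _ _ h1.1, aux _ _ h1.2⟩
  have hle : ∀ (v : AbsoluteValue ℂ ℝ) (x y : ℂ), (∀ c : ℝ, 0 < c → v x ≤ Real.exp (c * M) * v y) →
      v x ≤ v y := by
    intro v x y hxy
    have h1 : Tendsto (fun c : ℝ => Real.exp (c * M) * v y) (𝓝[>] 0) (𝓝 (v y)) := by
      have h2 : Tendsto (fun c : ℝ => Real.exp (c * M) * v y) (𝓝 0)
          (𝓝 (Real.exp (0 * M) * v y)) := by
        exact ((Real.continuous_exp.comp (continuous_id.mul continuous_const)).mul
          continuous_const).tendsto 0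
      rw [zero_mul, Real.exp_zero, one_mul] at h2
      exact h2.mono_left nhdsWithin_le_nhds
    refine ge_of_tendsto h1 ?_
    filter_upwards [self_mem_nhdsWithin] with c hc
    exact hxy c hc
  have heq : ∀ v : AbsoluteValue ℂ ℝ, v A = v A' := fun v =>
    le_antisymm (hle v A A' fun c hc => (key v c hc).1) (hle v A' A fun c hc => (key v c hc).2)
  by_cases h0 : A' = 0
  · have h1 : A = 0 := by
      have h2 := heq v₀
      rw [h0, map_zero] at h2
      exact (v₀.eq_zero).1 h2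
    exact ⟨M, hM, f, f', hf, hf', by rw [← hA, ← hA', h0, h1]⟩
  · obtain ⟨k, hk, hAk⟩ := hV (A / A') fun v => by
      rw [map_div₀, heq v, div_self ((v.ne_zero_iff).2 h0)]
    refine ⟨M * k, Nat.mul_pos hM hk, fun z => f z ^ k, fun z => f' z ^ k, artin_pow hf k,
      artin_pow hf' k, ?_⟩
    have e1 : meromorphicTrailingCoeffAt (fun z => f z ^ k) 0 =
        meromorphicTrailingCoeffAt f 0 ^ k := (hf.1 0).meromorphicTrailingCoeffAt_fun_pow
    have e2 : meromorphicTrailingCoeffAt (fun z => f' z ^ k) 0 =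
        meromorphicTrailingCoeffAt f' 0 ^ k := (hf'.1 0).meromorphicTrailingCoeffAt_fun_pow
    rw [e1, e2, pow_mul, pow_mul, ← div_pow, ← div_pow, map_pow, ← hA, ← hA']
    rw [div_pow, div_eq_one_iff_eq (pow_ne_zero _ h0)] at hAk
    exact hAk

end

end RIG

end StarkC
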