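import Pool.Agent.RIG.PDefsR
import Pool.Agent.SSQ.MAIN

/-!
# Stark's assertion up to a factor: the calculus
-/

set_option autoImplicit false

open NumberField IsDedekindDomain
open scoped TensorProduct Classical

namespace StarkC

namespace RIG

/-- `|x|_v` and `|y|_v` differ at most by the factor `exp c`. -/
def Cl (v : AbsoluteValue ℂ ℝ) (c : ℝ) (x y : ℂ) : Prop :=
  v x ≤ Real.exp c * v y ∧ v y ≤ Real.exp c * v x

section

variable {v : AbsoluteValue ℂ ℝ} {c c' : ℝ} {x y x' y' : ℂ}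

theorem Cl.mono (h : Cl v c x y) (hc : c ≤ c') : Cl v c' x y :=
  ⟨h.1.trans (mul_le_mul_of_nonneg_right (Real.exp_le_exp.2 hc) (v.nonneg _)),
    h.2.trans (mul_le_mul_of_nonneg_right (Real.exp_le_exp.2 hc) (v.nonneg _))⟩

theorem Cl.symm (h : Cl v c x y) : Cl v c y x := ⟨h.2, h.1⟩

theorem Cl.refl_of (h : 0 ≤ c) : Cl v c x x := by
  have h1 : (1 : ℝ) ≤ Real.exp c := Real.one_le_exp h
  constructor <;> nlinarith [v.nonneg x]

theorem Cl.mul (h : Cl v c x y) (h' : Cl v c' x' y') : Cl v (c + c') (x * x') (y * y') := by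
  have aux : ∀ a b a' b' : ℝ, 0 ≤ b → 0 ≤ a' → a ≤ Real.exp c * b → a' ≤ Real.exp c' * b' →
      a * a' ≤ Real.exp (c + c') * (b * b') := by
    intro a b a' b' hb ha' h1 h2
    calc a * a' ≤ (Real.exp c * b) * (Real.exp c' * b') :=
          mul_le_mul h1 h2 ha' (mul_nonneg (Real.exp_pos _).le hb)
      _ = Real.exp (c + c') * (b * b') := by rw [Real.exp_add]; ring
  constructor
  · rw [map_mul, map_mul]
    exact aux _ _ _ _ (v.nonneg _) (v.nonneg _) h.1 h'.1
  · rw [map_mul, map_mul]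
    exact aux _ _ _ _ (v.nonneg _) (v.nonneg _) h.2 h'.2

theorem Cl.inv (h : Cl v c x y) : Cl v c x⁻¹ y⁻¹ := by
  have key : ∀ a b : ℂ, Cl v c a b → v a⁻¹ ≤ Real.exp c * v b⁻¹ := by
    intro a b hab
    by_cases ha : a = 0
    · subst ha
      rw [inv_zero, map_zero]
      exact mul_nonneg (Real.exp_pos _).le (v.nonneg _)
    by_cases hb : b = 0
    · subst hb
      have h1 := hab.1
      rw [map_zero, mul_zero] at h1
      exact absurd (v.pos ha) (not_lt.2 h1)
    have hpa := v.pos ha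
    have hpb := v.pos hb
    rw [map_inv₀, map_inv₀, ← div_eq_mul_inv, inv_eq_one_div, div_le_div_iff₀ hpa hpb]
    linarith [hab.2]
  exact ⟨key x y h, key y x h.symm⟩

theorem Cl.pow (h : Cl v c x y) (k : ℕ) : Cl v (k * c) (x ^ k) (y ^ k) := by
  induction k with
  | zero =>
    rw [pow_zero, pow_zero]
    exact Cl.refl_of (by simp)
  | succ k ih =>
    rw [pow_succ, pow_succ]
    have h1 := ih.mul h
    refine h1.mono (le_of_eq ?_)
    push_cast
    ring

theorem Cl.zpow (h : Cl v c x y) (k : ℤ) : Cl v (|(k : ℝ)| * c) (x ^ k) (y ^ k) := by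
  obtain ⟨n, rfl | rfl⟩ := k.eq_nat_or_neg
  · rw [zpow_natCast, zpow_natCast]
    refine (h.pow n).mono (le_of_eq ?_)
    rw [Int.cast_natCast, abs_of_nonneg (Nat.cast_nonneg n)]
  · rw [zpow_neg, zpow_neg, zpow_natCast, zpow_natCast]
    refine (h.pow n).inv.mono (le_of_eq ?_)
    rw [Int.cast_neg, abs_neg, Int.cast_natCast, abs_of_nonneg (Nat.cast_nonneg n)]

theorem Cl.prod {ι : Type} (s : Finset ι) (f g : ι → ℂ) (c : ι → ℝ)
    (h : ∀ i ∈ s, Cl v (c i) (f i) (g i)) : Cl v (∑ i ∈ s, c i) (∏ i ∈ s, f i) (∏ i ∈ s, g i) := by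
  induction s using Finset.induction_on with
  | empty =>
    rw [Finset.prod_empty, Finset.prod_empty, Finset.sum_empty]
    exact Cl.refl_of le_rfl
  | insert i s hi ih =>
    rw [Finset.prod_insert hi, Finset.prod_insert hi, Finset.sum_insert hi]
    exact (h i (Finset.mem_insert_self _ _)).mul (ih fun j hj => h j (Finset.mem_insert_of_mem hj))

end

/-- `StarkMulAt` up to a factor. -/
def NearMul (v : AbsoluteValue ℂ ℝ) (c : ℝ) {K L : Type} [Field K] [NumberField K] [Field L]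
    [NumberField L] [Algebra K L] (M : ℕ) (S : Set (HeightOneSpectrum (𝓞 K)))
    (T : Set (HeightOneSpectrum (𝓞 L))) (Θ : XC L T →ₗ[ℂ] XC L T)
    {V V' : Type} [AddCommGroup V] [Module ℂ V] [AddCommGroup V'] [Module ℂ V']
    (ρ : Representation ℂ (L ≃ₐ[K] L) V) (ρ' : Representation ℂ (L ≃ₐ[K] L) V')
    (σ : ℂ ≃+* ℂ) : Prop :=
  ∃ f f' : ℂ → ℂ, IsArtinLMul M ρ.character S f ∧ IsArtinLMul M ρ'.character S f' ∧
    Cl v (c * M) (σ (Reg T ρ Θ ^ M / meromorphicTrailingCoeffAt f 0))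
      (Reg T ρ' Θ ^ M / meromorphicTrailingCoeffAt f' 0)

/-! ### Induction -/

theorem nind (v : AbsoluteValue ℂ ℝ) (K N : Type) [Field K] [NumberField K] [Field N]
    [NumberField N] [Algebra K N] [IsGalois K N]
    (S : Finset (HeightOneSpectrum (𝓞 K)))
    (φ : XQ N (aboveSet K N S) ≃ₗ[ℚ] QU N (aboveSet K N S))
    (Θ : XC N (aboveSet K N S) →ₗ[ℂ] XC N (aboveSet K N S))
    (V V' : Type) [AddCommGroup V] [Module ℂ V] [Module.Finite ℂ V]
    [AddCommGroup V'] [Module ℂ V'] [Module.Finite ℂ V']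
    (ρ : Representation ℂ (N ≃ₐ[K] N) V) (ρ' : Representation ℂ (N ≃ₐ[K] N) V') (σ : ℂ ≃+* ℂ)
    (M m : ℕ) (H : Fin m → Subgroup (N ≃ₐ[K] N)) (ψ : ∀ i, H i →* ℂˣ) (n : Fin m → ℤ)
    (hM : 0 < M) (hφ : IsPhiTheta K (aboveSet K N S) φ Θ)
    (hσ : ∀ g, ρ'.character g = σ (ρ.character g))
    (hχ : ∀ g, (M : ℂ) * ρ.character g = ∑ i, (n i : ℂ) * indFun (H i) (extZ (ψ i)) g)
    (c : Fin m → ℝ)
    (hlin : ∀ i, ∃ (Mi : ℕ)
      (S' : Finset (HeightOneSpectrum (𝓞 (IntermediateField.fixedField (H i))))),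
      0 < Mi ∧ aboveSet (IntermediateField.fixedField (H i)) N S' = aboveSet K N S ∧
      NearMul v (c i) Mi (S' : Set (HeightOneSpectrum (𝓞 (IntermediateField.fixedField (H i)))))
        (aboveSet K N S) Θ (linRep (liftChar (H i) (ψ i)))
        (linRep (twist σ (liftChar (H i) (ψ i)))) σ) :
    ∃ M' : ℕ, 0 < M' ∧
      NearMul v ((∑ i, |(n i : ℝ)| * c i) / M) M' (S : Set (HeightOneSpectrum (𝓞 K)))
        (aboveSet K N S) Θ ρ ρ' σ := by
  have hTf : (aboveSet K N (S : Set (HeightOneSpectrum (𝓞 K)))).Finite :=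
    IND.aboveSet_finite _ S.finite_toSet
  have hT := STB_thm K N (S : Set (HeightOneSpectrum (𝓞 K)))
  have hc := ALLT.thc K N _ hT φ Θ hTf hφ
  have hb := ALLT.thb K N _ φ Θ hTf hφ
  choose k S' hPk hS' f f' hf hf' hE using hlin
  have hχ' : ∀ g, (M : ℂ) * ρ'.character g =
      ∑ i, (n i : ℂ) * indFun (H i) (extZ (twist σ (ψ i))) g := by
    intro g
    have h1 : (M : ℂ) * ρ'.character g = σ ((M : ℂ) * ρ.character g) := by
      rw [hσ g, map_mul, map_natCast]
    rw [h1, hχ g, map_sum]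
    refine Finset.sum_congr rfl fun i _ => ?_
    rw [map_mul, map_intCast, IND.twist_indFun]
  have hlift : ∀ i, twist σ (liftChar (H i) (ψ i)) = liftChar (H i) (twist σ (ψ i)) :=
    fun i => rfl
  set Q : ℕ := ∏ i, k i with hQ
  set q : Fin m → ℕ := fun i => ∏ j ∈ Finset.univ.erase i, k j with hq
  have hk : ∀ i, Q = q i * k i := fun i => by
    rw [hQ, hq, mul_comm]
    exact (Finset.mul_prod_erase _ _ (Finset.mem_univ i)).symm
  refine ⟨Q * M, Nat.mul_pos (Finset.prod_pos fun i _ => hPk i) hM,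
    fun z => ∏ i, f i z ^ (n i * q i), fun z => ∏ i, f' i z ^ (n i * q i), ?_, ?_, ?_⟩
  · refine INDP.artin_comb LA_thm ALLT.lb ALLT.lind _ _ M m H ψ n hχ (fun i => S' i) hS' k q Q hk f
      fun i => ?_
    have := hf i
    rwa [IND.linRep_character] at this
  · refine INDP.artin_comb LA_thm ALLT.lb ALLT.lind _ _ M m H (fun i => twist σ (ψ i)) n hχ'
      (fun i => S' i) hS' k q Q hk f' fun i => ?_
    have := hf' i
    rwa [IND.linRep_character, hlift] at this
  · have hreg : ∀ (V : Type) [AddCommGroup V] [Module ℂ V] [Module.Finite ℂ V]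
        (ρ : Representation ℂ (N ≃ₐ[K] N) V) (ψ : ∀ i, H i →* ℂˣ),
        (∀ g, (M : ℂ) * ρ.character g = ∑ i, (n i : ℂ) * indFun (H i) (extZ (ψ i)) g) →
        Reg (aboveSet K N (S : Set (HeightOneSpectrum (𝓞 K)))) ρ Θ ^ (Q * M) =
          ∏ i, (Reg (aboveSet K N (S : Set (HeightOneSpectrum (𝓞 K))))
            (linRep (liftChar (H i) (ψ i))) Θ ^ k i) ^ (n i * q i) := by
      intro V _ _ _ ρ ψ hχ
      rw [mul_comm Q M, pow_mul,
        INDP.reg_comb TRD_thm ALLT.rgt hTf hT Θ hb hc V ρ M m H ψ n hχ, ← Finset.prod_pow]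
      refine Finset.prod_congr rfl fun i _ => ?_
      rw [← zpow_natCast, ← zpow_mul, ← zpow_natCast (_ : ℂ) (k i), ← zpow_mul]
      congr 1
      rw [hk i]
      push_cast
      ring
    have hlead : meromorphicTrailingCoeffAt (fun z => ∏ i, f i z ^ (n i * q i)) 0 =
        ∏ i, meromorphicTrailingCoeffAt (f i) 0 ^ (n i * (q i : ℤ)) :=
      INDT.lead_comb (fun i => n i * (q i : ℤ)) f fun i => (hf i).1 0
    have hlead' : meromorphicTrailingCoeffAt (fun z => ∏ i, f' i z ^ (n i * q i)) 0 =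
        ∏ i, meromorphicTrailingCoeffAt (f' i) 0 ^ (n i * (q i : ℤ)) :=
      INDT.lead_comb (fun i => n i * (q i : ℤ)) f' fun i => (hf' i).1 0
    rw [hlead, hlead', hreg V ρ ψ hχ, hreg V' ρ' (fun i => twist σ (ψ i)) hχ',
      ← Finset.prod_div_distrib, ← Finset.prod_div_distrib, map_prod]
    have hM0 : (M : ℝ) ≠ 0 := Nat.cast_ne_zero.2 hM.ne'
    have hsum : (∑ i, |(n i : ℝ)| * c i) / M * ((Q * M : ℕ) : ℝ) =
        ∑ i, |((n i * (q i : ℤ) : ℤ) : ℝ)| * (c i * k i) := by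
      rw [Nat.cast_mul]
      have h1 : (∑ i, |(n i : ℝ)| * c i) / M * ((Q : ℝ) * M) = (∑ i, |(n i : ℝ)| * c i) * Q := by
        field_simp
      rw [h1, Finset.sum_mul]
      refine Finset.sum_congr rfl fun i _ => ?_
      rw [hk i]
      push_cast
      rw [abs_mul, Nat.abs_cast]
      ring
    rw [hsum]
    refine Cl.prod _ _ _ _ fun i _ => ?_
    rw [← div_zpow, ← div_zpow, map_zpow₀]
    exact (hE i).zpow _

end RIG

end StarkC
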