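import Pool.Agent.SSQ.PDefs
import Pool.Agent.SSQ.PDefsE

/-!
# Stark's conjecture up to a small factor: printable definitions
-/

open NumberField IsDedekindDomain
open scoped Classical

namespace StarkW

open StarkP StarkV

/-- `StarkRat` up to a factor of absolute value between `exp (-ε)` and `exp ε`, for the absolute
value `v`: for all `φ` there is an `m ≥ 1` such that the Artin `L`-series of `m χ` and of its
conjugate continue and `|A_S(m χ, φ)^σ|_v` and `|A_S((m χ)^σ, φ)|_v` differ at most by the factor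
`exp (m ε)`, where `χ`, `χ^σ` are the characters of `ρ`, `ρ'` (`A_S(m χ, φ) = A_S(χ, φ)^m`). -/
def StarkNear (v : AbsoluteValue ℂ ℝ) (ε : ℝ) {K L : Type} [Field K] [NumberField K] [Field L]
    [NumberField L] [Algebra K L] {V V' : Type} [AddCommGroup V] [Module ℂ V] [AddCommGroup V']
    [Module ℂ V'] (S : Finset (HeightOneSpectrum (𝓞 K))) (ρ : Representation ℂ (L ≃ₐ[K] L) V)
    (ρ' : Representation ℂ (L ≃ₐ[K] L) V') (σ : ℂ ≃+* ℂ) : Prop :=
  ∀ Θ : ((L → ℝ) →₀ ℂ) →ₗ[ℂ] ((L → ℝ) →₀ ℂ), IsTheta K (aboveSet K L S) Θ →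
    ∃ (m : ℕ) (f f' : ℂ → ℂ), 0 < m ∧
      IsArtinL (copies m ρ).character (S : Set (HeightOneSpectrum (𝓞 K))) f ∧
      IsArtinL (copies m ρ').character (S : Set (HeightOneSpectrum (𝓞 K))) f' ∧
      v (σ (Reg (aboveSet K L S) (copies m ρ) Θ / meromorphicTrailingCoeffAt f 0)) ≤
        Real.exp (ε * m) *
          v (Reg (aboveSet K L S) (copies m ρ') Θ / meromorphicTrailingCoeffAt f' 0) ∧
      v (Reg (aboveSet K L S) (copies m ρ') Θ / meromorphicTrailingCoeffAt f' 0) ≤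
        Real.exp (ε * m) *
          v (σ (Reg (aboveSet K L S) (copies m ρ) Θ / meromorphicTrailingCoeffAt f 0))

/-- `StarkNear` holds with `S = S_∞` for `σ` and all injective linear characters `ψ` of
`Gal(L/K)` with `ψ ^ n = 1`. -/
def NearFaithful (v : AbsoluteValue ℂ ℝ) (ε : ℝ) (n : ℕ) (σ : ℂ ≃+* ℂ) (K L : Type) [Field K]
    [NumberField K] [Field L] [NumberField L] [Algebra K L] : Prop :=
  ∀ ψ : (L ≃ₐ[K] L) →* ℂˣ, Function.Injective ψ → ψ ^ n = 1 →
    StarkNear v ε ∅ (linRep ψ) (linRep (twist σ ψ)) σ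

end StarkW
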