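import Mathlib

/-!
# Complex numbers with all absolute values one

A complex number `z` with `v z = 1` for all absolute values `v : ℂ → ℝ` is a root of unity.
-/

set_option autoImplicit false

open Cardinal Polynomial

namespace Pool.Agent.RIG.VABS

/-- An embedding of `ℂ` over a countable ring into a large algebraically closed field. -/
theorem ext_hom (R : Type) [CommRing R] [IsDomain R] [Countable R] [Algebra R ℂ]
    [FaithfulSMul R ℂ] (Ω : Type) [Field Ω] [IsAlgClosed Ω] [Algebra R Ω] [FaithfulSMul R Ω]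
    (hΩ : 𝔠 ≤ #Ω) : Nonempty (ℂ →ₐ[R] Ω) := by
  obtain ⟨ι, v, hv⟩ := exists_isTranscendenceBasis' R ℂ
  obtain ⟨κ, w, hw⟩ := exists_isTranscendenceBasis' R Ω
  have hR : #R ≤ ℵ₀ := Cardinal.mk_le_aleph0
  have h1 : #ι ≤ 𝔠 := by
    have h := hv.1.injective
    have := Cardinal.mk_le_of_injective h
    simpa using this
  have h2 : 𝔠 ≤ #κ := by
    have h := IsAlgClosed.cardinal_le_max_transcendence_basis' w hw
    by_contra hlt
    rw [not_le] at hlt
    have h3 : max (max #R #κ) ℵ₀ < 𝔠 :=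
      max_lt (max_lt (hR.trans_lt aleph0_lt_continuum) hlt) aleph0_lt_continuum
    exact absurd (hΩ.trans h) (not_le.2 h3)
  obtain ⟨e⟩ := (Cardinal.le_def _ _).1 (h1.trans h2)
  have hw' : AlgebraicIndependent R (w ∘ e) := hw.1.comp e e.injective
  let A := Algebra.adjoin R (Set.range v)
  let f : A →ₐ[R] Ω := (MvPolynomial.aeval (w ∘ e)).comp hv.1.aevalEquiv.symm.toAlgHom
  have hw'' : Function.Injective (MvPolynomial.aeval (w ∘ e) : MvPolynomial ι R →ₐ[R] Ω) := hw'
  have hf : Function.Injective f := hw''.comp hv.1.aevalEquiv.symm.injective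
  let _ : Algebra A Ω := f.toRingHom.toAlgebra
  have : IsScalarTower R A Ω := IsScalarTower.of_algebraMap_eq fun r => (f.commutes r).symm
  have : FaithfulSMul A Ω := (faithfulSMul_iff_algebraMap_injective A Ω).2 hf
  have : Algebra.IsAlgebraic A ℂ := hv.isAlgebraic
  exact ⟨(IsAlgClosed.lift (R := A) (S := ℂ) (M := Ω)).restrictScalars R⟩

theorem ext_hom' {R : Type} [CommRing R] [IsDomain R] [Countable R] (i : R →+* ℂ)
    (hi : Function.Injective i) {Ω : Type} [Field Ω] [IsAlgClosed Ω] (hΩ : 𝔠 ≤ #Ω) (j : R →+* Ω)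
    (hj : Function.Injective j) : ∃ g : ℂ →+* Ω, ∀ r, g (i r) = j r := by
  let _ : Algebra R ℂ := i.toAlgebra
  let _ : Algebra R Ω := j.toAlgebra
  have : FaithfulSMul R ℂ := (faithfulSMul_iff_algebraMap_injective R ℂ).2 hi
  have : FaithfulSMul R Ω := (faithfulSMul_iff_algebraMap_injective R Ω).2 hj
  obtain ⟨g⟩ := ext_hom R Ω hΩ
  exact ⟨g.toRingHom, fun r => g.commutes r⟩

/-- A number can be sent to every root of its minimal polynomial. -/
theorem hom_root {z : ℂ} (hz : IsIntegral ℚ z) {Ω : Type} [Field Ω] [CharZero Ω] [IsAlgClosed Ω]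
    (hΩ : 𝔠 ≤ #Ω) {r : Ω} (hr : aeval r (minpoly ℚ z) = 0) : ∃ g : ℂ →+* Ω, g z = r := by
  have hirr := minpoly.irreducible hz
  have : Fact (Irreducible (minpoly ℚ z)) := ⟨hirr⟩
  have : Countable (AdjoinRoot (minpoly ℚ z)) := by
    have : Countable ℚ[X] := by
      rw [← Cardinal.mk_le_aleph0_iff]
      exact Polynomial.cardinalMk_le_max.trans (by simp)
    exact (AdjoinRoot.mk_surjective (g := minpoly ℚ z)).countable
  let i : AdjoinRoot (minpoly ℚ z) →+* ℂ := AdjoinRoot.lift (algebraMap ℚ ℂ) z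
    (by simpa [Polynomial.aeval_def] using minpoly.aeval ℚ z)
  let j : AdjoinRoot (minpoly ℚ z) →+* Ω := AdjoinRoot.lift (algebraMap ℚ Ω) r
    (by simpa [Polynomial.aeval_def] using hr)
  obtain ⟨g, hg⟩ := ext_hom' i i.injective hΩ j j.injective
  refine ⟨g, ?_⟩
  have h := hg (AdjoinRoot.root _)
  rwa [show i (AdjoinRoot.root _) = z from AdjoinRoot.lift_root _,
    show j (AdjoinRoot.root _) = r from AdjoinRoot.lift_root _] at h

/-- A transcendental number can be sent to any other one. -/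
theorem hom_trans {z w : ℂ} (hz : Transcendental ℚ z) (hw : Transcendental ℚ w) :
    ∃ g : ℂ →+* ℂ, g z = w := by
  have : Countable ℚ[X] := by
    rw [← Cardinal.mk_le_aleph0_iff]
    exact Polynomial.cardinalMk_le_max.trans (by simp)
  obtain ⟨g, hg⟩ := ext_hom' (aeval z : ℚ[X] →ₐ[ℚ] ℂ).toRingHom
    (transcendental_iff_injective.1 hz) (Ω := ℂ) (by simp) (aeval w : ℚ[X] →ₐ[ℚ] ℂ).toRingHom
    (transcendental_iff_injective.1 hw)
  refine ⟨g, ?_⟩
  have h := hg X
  simpa using h

/-- the absolute value given by an embedding in a normed field -/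
noncomputable def absOf {Ω : Type} [NormedField Ω] (g : ℂ →+* Ω) : AbsoluteValue ℂ ℝ :=
  (NormedField.toAbsoluteValue Ω).comp g.injective

theorem absOf_apply {Ω : Type} [NormedField Ω] (g : ℂ →+* Ω) (z : ℂ) : absOf g z = ‖g z‖ := rfl

theorem algebraic {z : ℂ} (hz : ∀ v : AbsoluteValue ℂ ℝ, v z = 1) : IsIntegral ℚ z := by
  by_contra hcon
  have ht : Transcendental ℚ z := fun h => hcon h.isIntegral
  have h1 : ‖z‖ = 1 := hz (absOf (RingHom.id ℂ))
  have h2 : Transcendental ℚ (2 * z) := by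
    intro h
    apply ht
    have h3 : IsAlgebraic ℚ ((1 / 2 : ℂ)) := by
      have := isAlgebraic_algebraMap (R := ℚ) (A := ℂ) (1 / 2)
      simpa using this
    have := h3.mul h
    simpa using this
  obtain ⟨g, hg⟩ := hom_trans ht h2
  have h3 := hz (absOf g)
  rw [absOf_apply, hg, norm_mul, h1] at h3
  norm_num at h3

/-- the coefficients of the minimal polynomial are `p`-adic integers -/
theorem coeff_padic {z : ℂ} (hz : ∀ v : AbsoluteValue ℂ ℝ, v z = 1) (p : ℕ) [Fact p.Prime]
    (k : ℕ) : ‖(((minpoly ℚ z).coeff k : ℚ) : ℚ_[p])‖ ≤ 1 := by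
  have hint := algebraic hz
  have hΩ : 𝔠 ≤ #(PadicAlgCl p) := by
    refine (continuum_le_cardinal_of_nontriviallyNormedField ℚ_[p]).trans ?_
    exact Cardinal.mk_le_of_injective (algebraMap ℚ_[p] (PadicAlgCl p)).injective
  let O : Subring (PadicAlgCl p) :=
    { carrier := {x | ‖x‖ ≤ 1}
      mul_mem' := fun {a b} ha hb => by
        simp only [Set.mem_ofPred_eq] at *
        rw [norm_mul]
        exact mul_le_one₀ ha (norm_nonneg _) hb
      one_mem' := by simp
      add_mem' := fun {a b} ha hb => by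
        simp only [Set.mem_ofPred_eq] at *
        exact (PadicAlgCl.isNonarchimedean p a b).trans (max_le ha hb)
      zero_mem' := by simp
      neg_mem' := fun {a} ha => by simpa using ha }
  let P : (PadicAlgCl p)[X] := (minpoly ℚ z).map (algebraMap ℚ (PadicAlgCl p))
  have hP : P.Splits := IsAlgClosed.splits P
  have hmonic : P.Monic := (minpoly.monic hint).map _
  have hroot : ∀ r ∈ P.roots, r ∈ O := by
    intro r hr
    have h1 : aeval r (minpoly ℚ z) = 0 := by
      have := (Polynomial.mem_roots'.1 hr).2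
      rwa [Polynomial.IsRoot.def, Polynomial.eval_map_algebraMap] at this
    obtain ⟨g, hg⟩ := hom_root hint hΩ h1
    have h2 := hz (absOf g)
    rw [absOf_apply, hg] at h2
    exact h2.le
  have hprod : P = (P.roots.map fun r => X - C r).prod := by
    exact hP.eq_prod_roots_of_monic hmonic
  have hlift : P ∈ Polynomial.lifts O.subtype := by
    rw [hprod]
    refine Subsemiring.multiset_prod_mem _ _ fun q hq => ?_
    rw [Multiset.mem_map] at hq
    obtain ⟨r, hr, rfl⟩ := hq
    have e : (X - C r : (PadicAlgCl p)[X]) = X + C (-r) := by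
      rw [C_neg, sub_eq_add_neg]
    rw [e]
    refine Subsemiring.add_mem _ (Polynomial.X_mem_lifts _) ?_
    have : (-r) = O.subtype ⟨-r, O.neg_mem (hroot r hr)⟩ := rfl
    rw [this]
    exact Polynomial.C_mem_lifts _ _
  have hc := (Polynomial.lifts_iff_coeff_lifts P).1 hlift k
  obtain ⟨x, hx⟩ := hc
  have h3 : ‖P.coeff k‖ ≤ 1 := by
    rw [← hx]
    exact x.2
  have h4 : P.coeff k = algebraMap ℚ_[p] (PadicAlgCl p) (((minpoly ℚ z).coeff k : ℚ) : ℚ_[p]) := by
    rw [Polynomial.coeff_map]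
    simp
  rw [h4] at h3
  have h5 := PadicAlgCl.norm_extends p (((minpoly ℚ z).coeff k : ℚ) : ℚ_[p])
  rw [← h5]
  exact h3

theorem isInt_of_padic {q : ℚ} (h : ∀ (p : ℕ) [Fact p.Prime], ‖(q : ℚ_[p])‖ ≤ 1) :
    ∃ m : ℤ, (m : ℚ) = q := by
  refine ⟨q.num, ?_⟩
  have hd : q.den = 1 := by
    by_contra hne
    obtain ⟨p, hp, hpd⟩ := Nat.exists_prime_and_dvd hne
    have : Fact p.Prime := ⟨hp⟩
    have h1 := h p
    rw [Padic.norm_rat_le_one_iff_padicValuation_le_one, Rat.padicValuation_le_one_iff] at h1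
    exact h1 hpd
  conv_rhs => rw [← Rat.num_div_den q]
  rw [hd]
  simp

theorem integral {z : ℂ} (hz : ∀ v : AbsoluteValue ℂ ℝ, v z = 1) : IsIntegral ℤ z := by
  have hint := algebraic hz
  have hc : ∀ k, ∃ m : ℤ, (m : ℚ) = (minpoly ℚ z).coeff k := fun k =>
    isInt_of_padic fun p _ => coeff_padic hz p k
  have hlift : minpoly ℚ z ∈ Polynomial.lifts (Int.castRingHom ℚ) := by
    rw [Polynomial.lifts_iff_coeff_lifts]
    intro k
    obtain ⟨m, hm⟩ := hc k
    exact ⟨m, hm⟩
  obtain ⟨q, hq, -, hqm⟩ := Polynomial.lifts_and_degree_eq_and_monic hlift (minpoly.monic hint)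
  refine ⟨q, hqm, ?_⟩
  have h1 : aeval z (minpoly ℚ z) = 0 := minpoly.aeval ℚ z
  rw [← hq] at h1
  rw [Polynomial.aeval_def, Polynomial.eval₂_map] at h1
  rw [RingHom.ext_int ((algebraMap ℚ ℂ).comp (Int.castRingHom ℚ)) (algebraMap ℤ ℂ)] at h1
  exact h1

/-- A complex number all of whose absolute values are one is a root of unity. -/
theorem root_of_unity {z : ℂ} (hz : ∀ v : AbsoluteValue ℂ ℝ, v z = 1) :
    ∃ n : ℕ, 0 < n ∧ z ^ n = 1 := by
  have hint := algebraic hz
  have : FiniteDimensional ℚ (IntermediateField.adjoin ℚ {z}) :=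
    IntermediateField.adjoin.finiteDimensional hint
  have : NumberField (IntermediateField.adjoin ℚ {z}) := { }
  let x : IntermediateField.adjoin ℚ {z} := IntermediateField.AdjoinSimple.gen ℚ z
  have hx : (x : ℂ) = z := IntermediateField.AdjoinSimple.coe_gen ℚ z
  have hxi : IsIntegral ℤ x := by
    have h := integral hz
    rw [← hx] at h
    exact (isIntegral_algebraMap_iff
      (algebraMap (IntermediateField.adjoin ℚ {z}) ℂ).injective).1 h
  obtain ⟨n, hn, h⟩ := NumberField.Embeddings.pow_eq_one_of_norm_eq_one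
    (IntermediateField.adjoin ℚ {z}) ℂ hxi (fun φ => by
      have h1 : aeval (φ x) (minpoly ℚ z) = 0 := by
        have h2 : aeval x (minpoly ℚ z) = 0 := IntermediateField.aeval_gen_minpoly ℚ z
        have h3 := Polynomial.hom_eval₂ (minpoly ℚ z)
          (algebraMap ℚ (IntermediateField.adjoin ℚ {z})) φ x
        rw [Polynomial.aeval_def] at h2 ⊢
        rw [h2, map_zero] at h3
        rw [h3]
        congr 1
        ext
        simp
      obtain ⟨g, hg⟩ := hom_root hint (Ω := ℂ) (by simp) h1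
      have h2 := hz (absOf g)
      rw [absOf_apply, hg] at h2
      exact h2)
  refine ⟨n, hn, ?_⟩
  have := congrArg (fun y : IntermediateField.adjoin ℚ {z} => (y : ℂ)) h
  simpa [hx] using this

end Pool.Agent.RIG.VABS
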